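import Pool.Agent.H5.EF.Stm

/-! Crew EF, part LOC. -/

open Set Filter Topology

namespace H40.EF

open H5.EF

theorem cnt_congr {R : ℝ} {u w : ℝ → ℝ} (h : ∀ r, 0 < r → r ≤ R → u r = w r) : cnt R u = cnt R w := by
  unfold cnt
  congr 1
  ext r
  constructor
  · rintro ⟨h1, h2, h3⟩
    exact ⟨h1, h2, by rw [← h r h1 h2]; exact h3⟩
  · rintro ⟨h1, h2, h3⟩
    exact ⟨h1, h2, by rw [h r h1 h2]; exact h3⟩

theorem NL_unique (hLIP : S_LIPG) {m : ℕ} {p γ R : ℝ} {u v u' v' : ℝ → ℝ} (hm : 1 ≤ m) (hp : 1 < p)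
    (hγ : 0 < γ) (hR : 0 < R) (h : NL m p γ R u v) (h' : NL m p γ R u' v') :
    ∀ r ∈ Icc 0 R, u r = u' r := by
  intro r hr
  obtain ⟨C, -, hC⟩ := hLIP m p γ R hm hp hγ hR
  have := (hC γ γ u v u' v' hγ.le le_rfl hγ.le le_rfl h h' r hr).1
  rw [sub_self, abs_zero, mul_zero] at this
  exact sub_eq_zero.mp (abs_eq_zero.mp (le_antisymm this (abs_nonneg _)))

theorem t_LOC (hFAM : S_FAM) (hTOP : S_TOP) (hLIP : S_LIPG) : S_LOC := by
  intro m p α β R u v u' v' hm hp hα hαβ hR h h'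
  obtain ⟨U, V, hF, hNL⟩ := hFAM m p α β R hm hp hα hαβ hR
  have h1 := hTOP α β R U V hR hαβ.le hF
  have e1 : cnt R u = cnt R (U α) := by
    apply cnt_congr
    intro r h0 hr
    exact NL_unique hLIP hm hp hα (by linarith) h (hNL α ⟨le_rfl, hαβ.le⟩) r ⟨h0.le, by linarith⟩
  have e2 : cnt R u' = cnt R (U β) := by
    apply cnt_congr
    intro r h0 hr
    exact NL_unique hLIP hm hp (hα.trans hαβ) (by linarith) h' (hNL β ⟨hαβ.le, le_rfl⟩) r
      ⟨h0.le, by linarith⟩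
  rw [e1, e2]
  exact h1

end H40.EF
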